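import Mathlib
import Pool.Agent.L5helper55.AL.G

set_option autoImplicit false

/-!
# Primes in almost every real solution of the recursion of the numbers `8 d_m² + 1`

Let `(3 + √8)^m = d_m + b_m √8`, `N_m = 8 d_m² + 1 = 64 b_m² + 9` and `α = (3 + √8)² = 17 + 12 √2`. Then
`N_m = 2 α^m + (2 α^{-m} + 5)`. We fix the base `α` and any sequence `g` with `g m = O(κ^m)`, `κ < α` (for
instance `g m = 2 α^{-m} + 5`) and let the amplitude vary: for almost every `β > 0` the integers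
`⌊β α^m + g m⌋` are prime with the frequency `1 / (m log α)`, with a square root error term, along all
exponents `m` and along every set of exponents.
-/

namespace Pool.Agent.Results.MP_f53aaa_nt.AmplitudeLaw

open Filter Topology MeasureTheory Asymptotics

/-- `(d_m, b_m)` where `(3 + √8)^m = d_m + b_m √8` -/
def pellPair : ℕ → ℕ × ℕ
  | 0 => (1, 0)
  | m + 1 => (3 * (pellPair m).1 + 8 * (pellPair m).2, (pellPair m).1 + 3 * (pellPair m).2)

/-- `N_m = 8 d_m² + 1` -/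
def N (m : ℕ) : ℕ := 8 * (pellPair m).1 ^ 2 + 1

/-- the base `(3 + √8)²` -/
noncomputable def α : ℝ := (3 + √8) ^ 2

/-- the `m`-th term `⌊β α ^ m + g m⌋` of the sequence with the amplitude `β` -/
noncomputable def term (g : ℕ → ℝ) (β : ℝ) (m : ℕ) : ℕ := ⌊β * α ^ m + g m⌋₊

open Classical in
/-- the number of `m` in `S`, `1 ≤ m ≤ n`, for which the `m`-th term is prime -/
noncomputable def count (S : Set ℕ) (g : ℕ → ℝ) (β : ℝ) (n : ℕ) : ℕ :=
  ((Finset.Icc 1 n).filter (fun m => m ∈ S ∧ (term g β m).Prime)).card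

open Classical in
/-- the sum of `1 / m` over the `m` in `S`, `1 ≤ m ≤ n` -/
noncomputable def U (S : Set ℕ) (n : ℕ) : ℝ :=
  ∑ m ∈ (Finset.Icc 1 n).filter (fun m => m ∈ S), 1 / (m : ℝ)

/-! ### the base -/

lemma sqrt8 : √8 = 2 * √2 := by
  rw [show (8 : ℝ) = 2 ^ 2 * 2 by norm_num, Real.sqrt_mul (by norm_num), Real.sqrt_sq (by norm_num)]

lemma s2_sq : √2 * √2 = 2 := Real.mul_self_sqrt (by norm_num)

lemma s2_gt : 1 < √2 := by
  rw [Real.lt_sqrt (by norm_num)]
  norm_num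

lemma α_eq : α = (1 + √2) ^ 4 := by
  unfold α
  rw [sqrt8]
  have h := s2_sq
  have e : (3 : ℝ) + 2 * √2 = (1 + √2) ^ 2 := by linear_combination -h
  rw [e]
  ring

lemma α_inv : α⁻¹ = (3 - √8) ^ 2 := by
  have h : √8 * √8 = 8 := Real.mul_self_sqrt (by norm_num)
  refine inv_eq_of_mul_eq_one_right ?_
  unfold α
  have e : (3 + √8) * (3 - √8) = 1 := by linear_combination -h
  calc (3 + √8) ^ 2 * (3 - √8) ^ 2 = ((3 + √8) * (3 - √8)) ^ 2 := by ring
    _ = 1 := by rw [e]; norm_num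

lemma pell_real (m : ℕ) : ((pellPair m).1 : ℝ) + ((pellPair m).2 : ℝ) * √8 = (3 + √8) ^ m ∧
    ((pellPair m).1 : ℝ) - ((pellPair m).2 : ℝ) * √8 = (3 - √8) ^ m := by
  have h : √8 * √8 = 8 := Real.mul_self_sqrt (by norm_num)
  induction m with
  | zero => simp [pellPair]
  | succ m ih =>
    rw [pow_succ, pow_succ, ← ih.1, ← ih.2]
    simp only [pellPair]
    push_cast
    constructor
    · linear_combination -((pellPair m).2 : ℝ) * h
    · linear_combination -((pellPair m).2 : ℝ) * h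

lemma pell_eq (m : ℕ) : (pellPair m).1 ^ 2 = 8 * (pellPair m).2 ^ 2 + 1 := by
  have h8 : √8 * √8 = 8 := Real.mul_self_sqrt (by norm_num)
  have h := pell_real m
  have h1 : (3 + √8) ^ m * (3 - √8) ^ m = 1 := by
    rw [← mul_pow]
    have e : (3 + √8) * (3 - √8) = 1 := by linear_combination -h8
    rw [e, one_pow]
  rw [← h.1, ← h.2] at h1
  have h2 : (((pellPair m).1 ^ 2 : ℕ) : ℝ) = ((8 * (pellPair m).2 ^ 2 + 1 : ℕ) : ℝ) := by
    push_cast
    linear_combination h1 + ((pellPair m).2 : ℝ) ^ 2 * h8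
  exact_mod_cast h2

lemma N_real (m : ℕ) : (N m : ℝ) = 2 * α ^ m + (2 * α⁻¹ ^ m + 5) := by
  have h8 : √8 * √8 = 8 := Real.mul_self_sqrt (by norm_num)
  have h := pell_real m
  have h1 : (3 + √8) ^ m * (3 - √8) ^ m = 1 := by
    rw [← mul_pow]
    have e : (3 + √8) * (3 - √8) = 1 := by linear_combination -h8
    rw [e, one_pow]
  rw [α_inv]
  unfold α N
  have e1 : ((3 + √8) ^ 2) ^ m = ((3 + √8) ^ m) ^ 2 := by rw [← pow_mul, ← pow_mul, mul_comm]
  have e2 : ((3 - √8) ^ 2) ^ m = ((3 - √8) ^ m) ^ 2 := by rw [← pow_mul, ← pow_mul, mul_comm]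
  rw [e1, e2, ← h.1, ← h.2]
  rw [← h.1, ← h.2] at h1
  push_cast
  linear_combination 4 * h1

/-! ### comparison with the library -/

lemma U_eq (S : Set ℕ) (n : ℕ) : U S n = Pool.Agent.L5helper55.AL.VS (S \ {0}) n := by
  unfold U Pool.Agent.L5helper55.AL.VS Pool.Agent.L5helper55.AL.w1
  rw [Finset.sum_filter]
  have h1 : Finset.Icc 1 n ⊆ Finset.range (n + 1) := fun m hm => by
    rw [Finset.mem_Icc] at hm
    rw [Finset.mem_range]
    omega
  refine (Finset.sum_congr rfl fun m hm => ?_).trans (Finset.sum_subset h1 fun m hm hm' => ?_)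
  · rw [Finset.mem_Icc] at hm
    have : m ∈ S \ {0} ↔ m ∈ S := by
      rw [Set.mem_sdiff, Set.mem_singleton_iff]
      exact ⟨fun h => h.1, fun h1 => ⟨h1, by omega⟩⟩
    by_cases h : m ∈ S
    · rw [if_pos h, if_pos (this.2 h)]
    · rw [if_neg h, if_neg fun h2 => h (this.1 h2)]
  · rw [Finset.mem_range] at hm
    rw [Finset.mem_Icc] at hm'
    have : m = 0 := by omega
    rw [if_neg]
    rw [Set.mem_sdiff, Set.mem_singleton_iff]
    exact fun h => h.2 this

lemma VS_diff (S : Set ℕ) : Pool.Agent.L5helper55.AL.VS (S \ {0}) = Pool.Agent.L5helper55.AL.VS S := by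
  classical
  funext n
  unfold Pool.Agent.L5helper55.AL.VS Pool.Agent.L5helper55.AL.w1
  refine Finset.sum_congr rfl fun m _ => ?_
  rcases Nat.eq_zero_or_pos m with h | h
  · subst h
    simp
  · have : m ∈ S \ {0} ↔ m ∈ S := by
      simp only [Set.mem_sdiff, Set.mem_singleton_iff]
      exact ⟨fun h => h.1, fun h1 => ⟨h1, by omega⟩⟩
    simp only [this]

lemma count_eq (S : Set ℕ) (g : ℕ → ℝ) (β : ℝ) (n : ℕ) :
    count S g β n = Pool.Agent.L5helper55.AL.cS1 (S \ {0}) (fun m => ⌊β * α ^ m + g m⌋₊) n := by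
  classical
  unfold count Pool.Agent.L5helper55.AL.cS1 term
  congr 1
  ext m
  simp only [Finset.mem_filter, Finset.mem_Icc, Finset.mem_range, Set.mem_sdiff, Set.mem_singleton_iff]
  constructor
  · rintro ⟨⟨h1, h2⟩, h3, h4⟩
    exact ⟨by omega, ⟨h3, by omega⟩, h4⟩
  · rintro ⟨h1, ⟨h2, h3⟩, h4⟩
    exact ⟨⟨by omega, by omega⟩, h2, h4⟩

lemma pt {g : ℕ → ℝ} {C κ : ℝ} (hκ0 : 0 ≤ κ) (hκ : κ < α) (hg : ∀ m, |g m| ≤ C * κ ^ m) (S : Set ℕ) :
    ∀ᵐ β : ℝ, 0 < β → Pool.Agent.L5helper55.AL.Pt1 (fun m => ⌊β * α ^ m + g m⌋₊) (1 / Real.log α)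
      (S \ {0}) :=
  Pool.Agent.L5helper55.AL.pt1_unit (ε := 1 + √2) (ε' := 1 - √2) (P := 2) (by linarith [s2_gt])
    (by push_cast; ring) (by linear_combination -s2_sq) (k := 4) (by norm_num) α_eq hκ0 hκ hg _

/-- **The law for almost every amplitude.** -/
theorem result :
    -- the sequence of the problem has the base `α`, the amplitude `2` and `g m = 2 α^{-m} + 5`
    (∀ m : ℕ, ((pellPair m).1 : ℝ) + ((pellPair m).2 : ℝ) * √8 = (3 + √8) ^ m ∧
      N m = 8 * (pellPair m).1 ^ 2 + 1 ∧ N m = 64 * (pellPair m).2 ^ 2 + 9 ∧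
      (N m : ℝ) = 2 * α ^ m + (2 * α⁻¹ ^ m + 5) ∧ term (fun m => 2 * α⁻¹ ^ m + 5) 2 m = N m) ∧
    -- the laws for almost every amplitude
    (∀ (g : ℕ → ℝ) (C κ : ℝ), 0 ≤ κ → κ < α → (∀ m : ℕ, |g m| ≤ C * κ ^ m) →
      (∀ᵐ β : ℝ, 0 < β →
        (fun n : ℕ => (count Set.univ g β n : ℝ) - 1 / Real.log α * Real.log n) =O[atTop]
        (fun n : ℕ => √(Real.log n) * (Real.log (Real.log n)) ^ ((5 : ℝ) / 2))) ∧
      (∀ S : Set ℕ, Tendsto (U S) atTop atTop → ∀ᵐ β : ℝ, 0 < β →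
        (fun n : ℕ => (count S g β n : ℝ) - 1 / Real.log α * U S n) =O[atTop]
        (fun n : ℕ => √(U S n * Real.log (Real.log n)) *
          (Real.log (U S n * Real.log (Real.log n))) ^ 2)) ∧
      (∀ S : Set ℕ, ∀ᵐ β : ℝ, 0 < β →
        ({m : ℕ | m ∈ S ∧ (term g β m).Prime}.Infinite ↔ Tendsto (U S) atTop atTop))) := by
  refine ⟨fun m => ⟨(pell_real m).1, rfl, ?_, N_real m, ?_⟩, fun g C κ hκ0 hκ hg => ⟨?_, fun S hS => ?_,
    fun S => ?_⟩⟩
  · have h := pell_eq m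
    unfold N
    rw [h]
    ring
  · unfold term
    rw [← N_real m, Nat.floor_natCast]
  · filter_upwards [pt hκ0 hκ hg Set.univ] with β hβ h0
    have hV : Pool.Agent.L5helper55.AL.VS (Set.univ \ {0}) = Pool.Agent.L5helper55.AL.VS Set.univ :=
      VS_diff _
    obtain ⟨B, hB, h⟩ := (hβ h0).law (by rw [hV]; exact Pool.Agent.L5helper55.AL.VS_univ_tendsto)
    rw [hV] at h
    simp only [count_eq]
    exact Pool.Agent.L5helper55.AL.bigO_all1 hB h
  · have hU : U S = Pool.Agent.L5helper55.AL.VS (S \ {0}) := funext fun n => U_eq S n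
    rw [hU] at hS ⊢
    filter_upwards [pt hκ0 hκ hg S] with β hβ h0
    obtain ⟨B, hB, h⟩ := (hβ h0).law hS
    simp only [count_eq]
    exact Pool.Agent.TH888.R.bigO_set hB hS h
  · have hU : U S = Pool.Agent.L5helper55.AL.VS (S \ {0}) := funext fun n => U_eq S n
    rw [hU]
    filter_upwards [pt hκ0 hκ hg S] with β hβ h0
    have hset : {m : ℕ | m ∈ S ∧ (term g β m).Prime} ⊆
        {m : ℕ | m ∈ S \ {0} ∧ (⌊β * α ^ m + g m⌋₊).Prime} ∪ {0} := by
      intro m hm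
      rcases Nat.eq_zero_or_pos m with h | h
      · exact Or.inr h
      · exact Or.inl ⟨⟨hm.1, by simpa using h.ne'⟩, hm.2⟩
    constructor
    · intro hi
      by_contra hn
      exact hi ((((hβ h0).fin hn).union (Set.finite_singleton 0)).subset hset)
    · intro hd hfin
      exact (hβ h0).inf hd (hfin.subset fun m hm => ⟨hm.1.1, hm.2⟩)

end Pool.Agent.Results.MP_f53aaa_nt.AmplitudeLaw
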