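import Pool.Agent.L5helper52.LC.D

/-!
# The numbers `64 b ^ 2 + 9 = 8 d ^ 2 + 1` are almost coprime

Let `N_m = 8 d_m ^ 2 + 1 = 64 b_m ^ 2 + 9`, `d_m + b_m √8 = (3 + √8) ^ m`. The question is whether infinitely many `N_m` are
prime. We prove that two of these numbers have a greatest common divisor of at most `exp (10 √m + 13)`, `m` the larger index
(`log N_m` is about `3.5 m`), and that the product of the first `X` of them exceeds their least common multiple at most
by a factor `exp (O(X ^ (3/2)))`, so that

`log lcm(N_1, …, N_X) = log (3 + √8) X ^ 2 + O(X ^ (3/2))`.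

Proof. Let `q` be a power of a prime, not of `3`, which divides `N_m`. There is a square root `s` of `8` modulo `q` such that
`α = (3 + s) ^ 2` satisfies `α ^ m = -2`. The pairs `(a, b)` with `α ^ a (-2) ^ b = 1` modulo `q` form a lattice whose index is the
order of `α`. If `q` divides a second value `N_n`, this order divides `m - n` or `m + n`. A box with more points than the index
contains two points whose difference `(a, b)` is in the lattice, and then `q` divides the norm
`4 ^ b - 2 (-2) ^ b d_(2 a) + 1` of `(3 + √8) ^ (2 a) (-2) ^ b - 1`, which is not zero and whose logarithm is `O(|a| + |b|)`. This gives the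
first part with one pair `(a, b)` for all `q`. For the second part one counts all the coincidences in a box of length
`O(√X)`; on average over the box this bounds the sum of `Λ(q) / z(q)`, `z(q) ≤ 2 X` the rank of apparition of `q`, by `O(√X)`.
-/

set_option autoImplicit false

namespace Pool.Agent.Results.MP_f53aaa_nt.LcmOfValues

open Finset
open Pool.Agent.R803.PV (db N)

/-- The greatest common divisor of `N m` and of the least common multiple of all `N n` with `1 ≤ n ≤ X`, `n ≠ m`. -/
def common (X m : ℕ) : ℕ := Nat.gcd (N m) (((Icc 1 X).erase m).lcm N)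

/-- **Theorem.** Let `N m = 8 d_m ^ 2 + 1 = 64 b_m ^ 2 + 9`. (1) For all `m ≠ n` the logarithm of the greatest common divisor of
`N m` and `N n` is at most `10 √(max m n) + 13`. (2) For all `X` the sum over `1 ≤ m ≤ X` of the logarithms of `common X m` is at most
`250 X ^ (3/2)`, and for all `ε > 0` the logarithm of `common X m` is at most `(250 / ε) √X` for all but at most `ε X` of these
`m`. (3) For all `X` the logarithm of the least common multiple of `N 1, …, N X` differs from `X ^ 2 log (3 + √8)` by at most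
`250 X ^ (3/2)`. -/
theorem result :
    (∀ m : ℕ, ((db m).1 : ℝ) + ((db m).2 : ℝ) * √8 = (3 + √8) ^ m ∧
      N m = 8 * (db m).1 ^ 2 + 1 ∧ N m = 64 * (db m).2 ^ 2 + 9) ∧
    (∀ m n : ℕ, m ≠ n → Real.log (Nat.gcd (N m) (N n)) ≤ 10 * √(max m n : ℕ) + 13) ∧
    (∀ X : ℕ, ∑ m ∈ Icc 1 X, Real.log (common X m) ≤ 250 * (X * √X)) ∧
    (∀ (X : ℕ) (ε : ℝ), 0 < ε →
      (#{m ∈ Icc 1 X | 250 / ε * √X < Real.log (common X m)} : ℝ) ≤ ε * X) ∧
    (∀ X : ℕ, |Real.log (((Icc 1 X).lcm N : ℕ) : ℝ) - (X : ℝ) ^ 2 * Real.log (3 + √8)| ≤ 250 * (X * √X)) :=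
  ⟨fun m => ⟨Pool.Agent.R803.PV.real_eq m, rfl, Pool.Agent.R803.PV.N_eq m⟩,
    fun _ _ h => Pool.Agent.L5helper52.LC.gcd_le h, Pool.Agent.L5helper52.LC.sum_com',
    Pool.Agent.L5helper52.LC.few, Pool.Agent.L5helper52.LC.log_lcm⟩

end Pool.Agent.Results.MP_f53aaa_nt.LcmOfValues
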