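import Pool.Agent.L5helper2.RS.E9

/-!
# MP_f53aaa_nt: the sequence `8 d_m² + 1` and almost every system of residue classes

`(3 + √8)^m = d_m + b_m √8`. The prime numbers among the `8 d_m² + 1` are those which avoid the residue
class `0` modulo all primes `p ≤ √(8 d_m² + 1)`. We prove the law which is expected for them for almost
every choice of one residue class `a_p` modulo each prime.
-/

set_option autoImplicit false

namespace Pool.Agent.Results.MP_f53aaa_nt.RandomResidues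

open Finset MeasureTheory ProbabilityTheory Filter Topology
open Pool.Agent.L5helper2.RS

/-- `(d_m, b_m)` where `(3 + √8)^m = d_m + b_m √8` -/
def pellPair : ℕ → ℕ × ℕ
  | 0 => (1, 0)
  | m + 1 => (3 * (pellPair m).1 + 8 * (pellPair m).2, (pellPair m).1 + 3 * (pellPair m).2)

/-- `N_m = 8 d_m² + 1 = 64 b_m² + 9` -/
def N (m : ℕ) : ℕ := 8 * (pellPair m).1 ^ 2 + 1

lemma pellPair_eq (m : ℕ) : pellPair m = pell m := by
  induction m with
  | zero => rfl
  | succ m ih =>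
    rw [pell_succ, ← ih]
    rfl

lemma N_eq (m : ℕ) : N m = NN m := by
  unfold N NN
  rw [pellPair_eq]

open Classical in
theorem result (Ω : Type) [MeasurableSpace Ω] (P : Measure Ω) [IsProbabilityMeasure P] (a : ℕ → Ω → ℕ)
    (hmeas : ∀ p, Measurable (a p))
    (hind : iIndepFun (fun p : Nat.Primes => a p) P)
    (hunif : ∀ p r : ℕ, p.Prime → r < p → P.real {ω | a p ω = r} = 1 / p) :
    ∃ κ : Ω → ℝ, Integrable κ P ∧ ∫ ω, κ ω ∂P = 1 ∧ ∀ᵐ ω ∂P, 0 ≤ κ ω ∧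
      (∃ δ : ℕ → ℝ,
        (∀ w : ℕ, Tendsto (fun n : ℕ =>
          (#{m ∈ Icc 1 n | ∀ p ≤ w, p.Prime → ¬ N m ≡ a p ω [MOD p]} : ℝ) / n) atTop (𝓝 (δ w))) ∧
        Tendsto (fun w : ℕ => δ w / ∏ p ∈ Icc 1 w with p.Prime, (1 - 1 / (p : ℝ))) atTop (𝓝 (κ ω))) ∧
      Tendsto (fun n : ℕ =>
        (#{m ∈ Icc 1 n | ∀ p, p.Prime → p ^ 2 ≤ N m → ¬ N m ≡ a p ω [MOD p]} : ℝ) / Real.log n) atTop
        (𝓝 (Real.exp (-Real.eulerMascheroniConstant) / Real.log (3 + √8) * κ ω)) := by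
  -- the system of the residues
  obtain ⟨X, hX⟩ : ∃ X : Ix 1 → Ω → ℕ, X = fun j => a (pp j) := ⟨_, rfl⟩
  have hR : RSys P (pp (k := 1)) X := by
    refine ⟨inferInstance, fun j => by rw [hX]; exact hmeas _, ?_, ?_, pp_two⟩
    · have hinj : Function.Injective (fun j : Ix 1 => (⟨pp j, j.1.2⟩ : Nat.Primes)) := by
        intro i j hij
        have h1 : pp i = pp j := congrArg (fun q : Nat.Primes => (q : ℕ)) hij
        have h4 : i.1 = j.1 := Subtype.ext h1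
        exact Prod.ext h4 (Subsingleton.elim _ _)
      have h1 := hind.precomp hinj
      intro s C
      have h2 := h1.measure_inter_preimage_eq_mul s (sets := C) fun i _ => MeasurableSet.of_discrete
      rw [measureReal_def, hX]
      have h3 : P (⋂ j ∈ s, (fun j : Ix 1 => a (pp j)) j ⁻¹' C j) = ∏ j ∈ s, P (a (pp j) ⁻¹' C j) := h2
      rw [h3, ENNReal.toReal_prod]
      rfl
    · intro j r hr
      rw [hX]
      exact hunif (pp j) r j.1.2 hr
  obtain ⟨C, hC⟩ := pell_data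
  obtain ⟨Q, hQ1, hQd, hQl, hQ⟩ := exists_per hC
  have hlaw := exp_law hR hC hQ1 hQd hQl hQ zP_mono zP_ge (div_pos (Real.exp_pos _)
    (Real.log_pos (by linarith [Real.sqrt_nonneg 8]))) pell_mertens
  -- the translation of the conditions
  have hsv : ∀ (ω : Ω) (m w : ℕ), Sv X (fun m => ((NN m : ℕ) : ℤ)) w ω m ↔
      ∀ p ≤ w, p.Prime → ¬ N m ≡ a p ω [MOD p] := by
    intro ω m w
    rw [sv_iff, hX]
    constructor
    · intro h p hp hpp h1
      refine h (⟨p, hpp⟩, 0) hp ?_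
      have h2 := (Nat.modEq_iff_dvd.1 h1.symm)
      rw [N_eq] at h2
      exact h2
    · intro h j hj h1
      refine h (pp j) hj j.1.2 ?_
      rw [N_eq]
      exact (Nat.modEq_iff_dvd.2 h1).symm
  have hsv2 : ∀ (ω : Ω) (m : ℕ), Sv X (fun m => ((NN m : ℕ) : ℤ)) (zP m) ω m ↔
      ∀ p, p.Prime → p ^ 2 ≤ N m → ¬ N m ≡ a p ω [MOD p] := by
    intro ω m
    rw [hsv]
    have h1 : ∀ p : ℕ, p ≤ zP m ↔ p ^ 2 ≤ N m := by
      intro p
      rw [zP, N_eq, Nat.le_sqrt']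
    constructor
    · intro h p hp hp2
      exact h p ((h1 p).2 hp2) hp
    · intro h p hp hp2
      exact h p hp2 ((h1 p).1 hp)
  -- the limit
  have hex : ∀ ω, ∃ κ : ℝ, (∃ κ' : ℝ, Tendsto (fun w => RR X (fun m => ((NN m : ℕ) : ℤ)) Q w ω) atTop (𝓝 κ')) →
      Tendsto (fun w => RR X (fun m => ((NN m : ℕ) : ℤ)) Q w ω) atTop (𝓝 κ) := by
    intro ω
    by_cases h : ∃ κ' : ℝ, Tendsto (fun w => RR X (fun m => ((NN m : ℕ) : ℤ)) Q w ω) atTop (𝓝 κ')
    · obtain ⟨κ', h'⟩ := h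
      exact ⟨κ', fun _ => h'⟩
    · exact ⟨0, fun h' => absurd h' h⟩
  choose κ hκ using hex
  have hκt : ∀ᵐ ω ∂P, Tendsto (fun w => RR X (fun m => ((NN m : ℕ) : ℤ)) Q w ω) atTop (𝓝 (κ ω)) := by
    filter_upwards [hlaw] with ω hω
    obtain ⟨κ', _, h2, _⟩ := hω
    exact hκ ω ⟨κ', h2⟩
  obtain ⟨hint, hmean⟩ := exp_mean hR hC hQ1 hQd hQ hκt
  refine ⟨κ, hint, hmean, ?_⟩
  filter_upwards [hlaw, hκt] with ω hω hω2
  obtain ⟨κ', h1, h2, h3⟩ := hω
  have hk : κ' = κ ω := tendsto_nhds_unique h2 hω2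
  rw [hk] at h1 h3
  refine ⟨h1, ⟨fun w => dens (Sv X (fun m => ((NN m : ℕ) : ℤ)) w ω) (Q w), fun w => ?_, ?_⟩, ?_⟩
  · have h4 := per_tendsto (hQ1 w) (sv_per (X := X) (v := fun m => ((NN m : ℕ) : ℤ)) hQ (le_refl w) ω)
    refine h4.congr fun n => ?_
    simp only [hsv]
  · refine hω2.congr fun w => ?_
    unfold RR
    rw [Vp_eq]
  · refine h3.congr fun n => ?_
    simp only [hsv2]

end Pool.Agent.Results.MP_f53aaa_nt.RandomResidues
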