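import Pool.Agent.L5helper73.LD.C

/-!
# The numbers `64 b ^ 2 + 9 = 8 d ^ 2 + 1`: small divisors are rare, large prime factors

Let `N_m = 8 d_m ^ 2 + 1 = 64 b_m ^ 2 + 9`, `d_m + b_m √8 = (3 + √8) ^ m`. The question is whether infinitely many `N_m` have
no prime factor below their square root. We prove that on average over the `m ≤ X` the least common multiple of all divisors
`≤ Q` of `N_m` has a logarithm of at most `20 (√Q + Q / X)`, whereas `log N_m` is about `3.5 m`. Hence for almost all `m` the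
divisors up to `δ m ^ 2` of `N_m` have a least common multiple of at most `N_m ^ ε`, and either `N_m` has a prime factor larger
than `δ m ^ 2` or the product of all its prime factors is at most `N_m ^ ε`.

Proof. If a power `d` of a prime `q ≠ 3` divides `N_m` and `N_n`, it divides `b_(m-n)` or `b_(m+n)`, because
`N_m - N_n = 64 b_(m-n) b_(m+n)`. So the number of the `m ≤ X` with `d ∣ N_m` is at most `2 (X / z(d) + 1)`, where `z(d)` is the
rank of apparition, and the sum of `Λ(d)` over all `d` with `z(d) = t` is at most `log b_t`.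
-/

set_option autoImplicit false

namespace Pool.Agent.Results.MP_f53aaa_nt.SmallDivisors

open Finset Pool.Agent.R803.PV

/-- the least common multiple of the divisors `≤ Q` of `n` -/
def smallLcm (Q n : ℕ) : ℕ := ((Icc 1 Q).filter (fun d => d ∣ n)).lcm id

open Classical in
/-- **Theorem.** Let `N m = 8 d_m ^ 2 + 1 = 64 b_m ^ 2 + 9`. (1) For all `X` and `Q` the sum of the logarithms of `smallLcm Q (N m)`
over `1 ≤ m ≤ X` is at most `20 (X √Q + Q)`. (2) For every `ε > 0` there is `δ > 0` such that for all `X` the least common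
multiple of the divisors `≤ δ m ^ 2` of `N m` is at most `N m ^ ε` for all but at most `ε X` of the `1 ≤ m ≤ X`.
(3) For every `ε > 0` there is `δ > 0` such that for all `X` and for all but at most `ε X` of the `1 ≤ m ≤ X` the number `N m` has a
prime factor larger than `δ m ^ 2` or the product of its prime factors is at most `N m ^ ε`. -/
theorem result :
    (∀ m : ℕ, ((db m).1 : ℝ) + ((db m).2 : ℝ) * √8 = (3 + √8) ^ m ∧
      N m = 8 * (db m).1 ^ 2 + 1 ∧ N m = 64 * (db m).2 ^ 2 + 9) ∧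
    (∀ X Q : ℕ, ∑ m ∈ Icc 1 X, Real.log (smallLcm Q (N m)) ≤ 20 * (X * √Q + Q)) ∧
    (∀ ε : ℝ, 0 < ε → ∃ δ : ℝ, 0 < δ ∧ ∀ X : ℕ,
      (#{m ∈ Icc 1 X | (N m : ℝ) ^ ε < (smallLcm ⌊δ * (m : ℝ) ^ 2⌋₊ (N m) : ℝ)} : ℝ) ≤ ε * X) ∧
    ∀ ε : ℝ, 0 < ε → ∃ δ : ℝ, 0 < δ ∧ ∀ X : ℕ,
      (#{m ∈ Icc 1 X | (∀ q : ℕ, q.Prime → q ∣ N m → (q : ℝ) ≤ δ * (m : ℝ) ^ 2) ∧
        (N m : ℝ) ^ ε < ((∏ q ∈ (N m).primeFactors, q : ℕ) : ℝ)} : ℝ) ≤ ε * X :=
  ⟨fun m => ⟨real_eq m, rfl, N_eq m⟩, Pool.Agent.L5helper73.LD.average_L,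
    fun _ hε => Pool.Agent.L5helper73.LD.almost hε, fun _ hε => Pool.Agent.L5helper73.LD.large_factor hε⟩

end Pool.Agent.Results.MP_f53aaa_nt.SmallDivisors
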